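import Pool.Agent.X214.OP.Fin

/-! MP_48c50a_an, Q1 (negated form): zeros of optimal polynomial approximants in every sector. -/

namespace Pool.Agent.Results.MP_48c50a_an.NoZeroFreeSector

open PowerSeries Pool.Agent.X214.OP

/-- There are a weight `w` (`w 0 = 1`, `w k > 0`, `w k / w (k+1) → 1`), a cyclic
`f ∈ H^2_w` (given by its Taylor series, which converges on the unit disk) and a point `ζ` of the
unit circle such that every `n`-th optimal polynomial approximant exists and is unique, and every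
sector with vertex `ζ` contains a zero of one of them. -/
theorem result : ∃ w : ℕ → ℝ, IsWeight w ∧ ∃ f : PowerSeries ℂ, Cyclic w f ∧
    (∀ z : ℂ, ‖z‖ < 1 → Summable fun k => coeff k f * z ^ k) ∧
    (∀ n, ∃! q, IsOPA w f n q) ∧
    ∃ ζ : ℂ, ‖ζ‖ = 1 ∧ ∀ ρ θ₁ θ₂ : ℝ, 0 < ρ → θ₁ < θ₂ →
      ∃ (n : ℕ) (q : Polynomial ℂ), IsOPA w f n q ∧ ∃ z ∈ Sector ζ ρ θ₁ θ₂, q.eval z = 0 := by
  obtain ⟨w, hw, f, h1, h2, h3, h4⟩ := main
  exact ⟨w, hw, f, h1, h2, h3, 1, norm_one, h4⟩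

end Pool.Agent.Results.MP_48c50a_an.NoZeroFreeSector
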